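import Pool.Agent.H21.TilfQ

set_option autoImplicit false

open MeasureTheory

namespace Pool.Agent.Results.MP_cd2b7c_an.AutomaticContinuity

/-- the complex `L²` space of `μ` -/
abbrev L2 {G : Type} [MeasurableSpace G] (μ : Measure G) : Type := Lp ℂ 2 μ

/-- `φ` is complex-linear -/
def IsLin {G : Type} [MeasurableSpace G] (μ : Measure G) (φ : L2 μ → ℂ) : Prop :=
  (∀ f g : L2 μ, φ (f + g) = φ f + φ g) ∧ ∀ (c : ℂ) (f : L2 μ), φ (c • f) = c * φ f

/-- `g` is the translate of `f` by `a`: `g(x) = f(x - a)` for almost all `x` -/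
def IsTranslate {G : Type} [AddCommGroup G] [MeasurableSpace G] (μ : Measure G) (a : G)
    (f g : L2 μ) : Prop :=
  (g : G → ℂ) =ᵐ[μ] fun x => (f : G → ℂ) (x - a)

/-- for the normalised Haar measure on the Borel sets of `G`, every translation-invariant linear
functional on `L²(G)` is continuous for the `L²` norm -/
def AutoCont (G : Type) [TopologicalSpace G] [AddCommGroup G] : Prop :=
  ∀ (_ : MeasurableSpace G) (_ : BorelSpace G) (μ : Measure G),
    μ.IsAddHaarMeasure → μ Set.univ = 1 →
      ∀ φ : L2 μ → ℂ, IsLin μ φ →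
        (∀ (a : G) (f g : L2 μ), IsTranslate μ a f g → φ g = φ f) → Continuous φ

/-- For every prime `p`, every linear functional on the complex `L²` space of `ℤ_[p]` with its normalised
Haar measure which is invariant under all translations is continuous. -/
theorem result (p : ℕ) [Fact p.Prime] : AutoCont ℤ_[p] := by
  intro _ _ μ hμ h1 φ hlin hφ
  have : IsProbabilityMeasure μ := ⟨h1⟩
  refine H21.Tilf.tilf μ { toFun := φ, map_add' := hlin.1, map_smul' := hlin.2 } ?_
  intro a f g h
  refine hφ (-a) f g ?_
  unfold IsTranslate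
  simpa only [sub_neg_eq_add] using h

end Pool.Agent.Results.MP_cd2b7c_an.AutomaticContinuity
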